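import Pool.Agent.K4H31.GE.Uncond

/-!
# MP_ef2672_gt: Hermite's constant and the least Gaussian energy of lattices

For a lattice `L = A ℤⁿ` of covolume one the Gaussian energy at `α` is
`∑_{v ∈ L, v ≠ 0} e^{-π α |v|²}` (for other covolumes `|v|²` is divided by `covolume^(2/n)`). Let
`e_n(α)` be `-1/n` times the logarithm of the least energy in dimension `n`. We compare `e_n(α)`
with `γ_n/n` in both directions, for all `n ≥ 2` and `α`, and deduce that Q1, and the question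
whether `γ_n/n → 1/(2πe)`, are questions on the numbers `e_n(α)`.
-/

open Filter Real
open scoped Topology

namespace Pool.Agent.Results.MP_ef2672_gt.GaussianEnergy

open Pool.Agent.H160R3.Herm

/-- Gaussian energy at `α` of the lattice `A ℤⁿ` scaled to covolume one -/
noncomputable def gaussEnergy {n : ℕ} (A : Matrix (Fin n) (Fin n) ℝ) (α : ℝ) : ℝ :=
  ∑' w : {w : Fin n → ℤ // w ≠ 0},
    exp (-(π * α * ((∑ i, (A.mulVec fun j => (w.1 j : ℝ)) i ^ 2) / |A.det| ^ ((2 : ℝ) / n))))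

/-- the least Gaussian energy at `α` of a lattice of rank `n` -/
noncomputable def leastEnergy (n : ℕ) (α : ℝ) : ℝ :=
  ⨅ A : {A : Matrix (Fin n) (Fin n) ℝ // A.det ≠ 0}, gaussEnergy A.1 α

/-- `e_n(α) = -(log (least energy)) / n` -/
noncomputable def rate (n : ℕ) (α : ℝ) : ℝ := -log (leastEnergy n α) / n

/-- the function `x` for `x ≥ 1/2`, `log (2 e x) / 2` for `x < 1/2` -/
noncomputable def profile (x : ℝ) : ℝ := if 1 / 2 ≤ x then x else log (2 * exp 1 * x) / 2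

/-- the numbers `e_n(α)` determine the limiting behaviour of `γ_n/n` and conversely -/
theorem result :
    (∀ n : ℕ, 2 ≤ n → ∀ A : Matrix (Fin n) (Fin n) ℝ, A.det ≠ 0 → ∀ α : ℝ, 0 < α →
      Summable fun w : {w : Fin n → ℤ // w ≠ 0} =>
        exp (-(π * α * ((∑ i, (A.mulVec fun j => (w.1 j : ℝ)) i ^ 2) / |A.det| ^ ((2 : ℝ) / n))))) ∧
    (∀ n : ℕ, 2 ≤ n → ∀ α : ℝ, 0 < α →
      profile (α / (2 * exp 1)) ≤ rate n α ∧ rate n α ≤ profile (π * α * (hermite n / n))) ∧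
    (∀ n : ℕ, 2 ≤ n → ∀ α β : ℝ, 0 < β → β ≤ α → rate n β / β ≤ rate n α / α) ∧
    (∀ n : ℕ, 2 ≤ n → ∀ α : ℝ, 1 ≤ α →
      |hermite n / n - rate n α / (π * α)| ≤ 2 / (π * α)) ∧
    (Tendsto (fun n : ℕ => hermite n / n) atTop (𝓝 (1 / (2 * π * exp 1))) ↔
      ∀ α : ℝ, 0 < α → Tendsto (fun n : ℕ => rate n α) atTop (𝓝 (profile (α / (2 * exp 1))))) ∧
    (Tendsto (fun n : ℕ => hermite n / n) atTop (𝓝 (1 / (2 * π * exp 1))) ↔
      ∀ α₀ : ℝ, ∃ α ≥ α₀, 0 < α ∧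
        Tendsto (fun n : ℕ => rate n α) atTop (𝓝 (profile (α / (2 * exp 1))))) ∧
    (∀ α : ℕ → ℝ, Tendsto α atTop atTop → ∀ L : ℝ,
      (Tendsto (fun n : ℕ => hermite n / n) atTop (𝓝 L) ↔
        Tendsto (fun n : ℕ => rate n (α n) / (π * α n)) atTop (𝓝 L))) ∧
    ((∃ L : ℝ, Tendsto (fun n : ℕ => hermite n / n) atTop (𝓝 L)) ↔
      ∀ ε > 0, ∃ α ≥ 1 / ε, ∃ L : ℝ, ∀ᶠ n : ℕ in atTop, |rate n α / (π * α) - L| ≤ ε) ∧
    (∀ ε > 0, ∀ᶠ n : ℕ in atTop, ∀ α : ℝ, 0 < α → rate n α ≤ profile ((1 / π + ε) * α)) := by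
  refine ⟨fun n hn A hA α hα => ?_, fun n hn α hα => ⟨?_, ?_⟩, fun n hn α β hβ h => ?_,
    fun n hn α hα => ?_, ⟨fun h α hα => ?_, fun h => ?_⟩, ⟨fun h α₀ => ?_, fun h => ?_⟩,
    fun α hα L => ?_, ?_, fun ε hε => ?_⟩
  · exact Pool.Agent.K4H31.GE.summable_theta (by omega) hA hα
  · exact Pool.Agent.K4H31.GE.energy_ge_Psi hn hα
  · exact Pool.Agent.K4H31.GE.energy_le (by omega) hα
  · exact Pool.Agent.K4H31.GE.energy_mono (by omega) hβ h
  · exact Pool.Agent.K4H31.GE.dev hn hα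
  · exact Pool.Agent.K4H31.GE.value_imp h hα
  · refine Pool.Agent.K4H31.GE.value_of fun α₀ => ?_
    exact ⟨max α₀ 1, le_max_left _ _, by positivity, h _ (by positivity)⟩
  · exact ⟨max α₀ 1, le_max_left _ _, by positivity,
      Pool.Agent.K4H31.GE.value_imp h (by positivity)⟩
  · exact Pool.Agent.K4H31.GE.value_of h
  · exact Pool.Agent.K4H31.GE.tendsto_iff α hα L
  · exact Pool.Agent.K4H31.GE.exists_iff
  · exact Pool.Agent.K4H31.GE.uncond hε

end Pool.Agent.Results.MP_ef2672_gt.GaussianEnergy
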