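import Pool.Agent.K4H31.LPH.Fin

/-!
# MP_ef2672_gt: a linear programming hierarchy that computes Hermite's constant

A lattice between `m ℤⁿ` and `ℤⁿ` is a subgroup `U` of `(ℤ/m)ⁿ`. Its *indicator of level `ℓ`* is the
function `X ↦ 1[X₁, …, X_ℓ ∈ U]` on the `ℓ`-tuples of elements of `(ℤ/m)ⁿ`: it is nonnegative, has
nonnegative Fourier transform, is `1` at `0`, and vanishes at all tuples whose generated subgroup
has a nonzero element shorter than the minimum of the lattice. A *pseudo-lattice* of level `ℓ` is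
any real function with these properties (linear constraints). For `ℓ = 1` this is Delsarte's
linear programming bound (with the additional constraint for the multiples of the points).

The bound of level `ℓ` for Hermite's constant is the supremum of `d (∑ a)^(2/(nℓ)) / m²` over all
moduli `m`, squared lengths `d ≤ m²` and pseudo-lattices `a` of minimum `√d`. Every level is
an upper bound for `γ_n`, and the levels `ℓ ≥ n + 3` are equal to `γ_n` up to a factor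
`(1 + 2^(n+2-ℓ))^(4/(nℓ))`, which is `1 + O(1/n²)` for `ℓ = n + 3`.
-/

open Filter Topology

namespace Pool.Agent.Results.MP_ef2672_gt.LPHierarchy

open Pool.Agent.H160R3.Herm Pool.Agent.K4H31.LPH

/-- `⟨X, Y⟩ = ∑ X_{ji} Y_{ji}` in `ℤ/m` -/
def pairing {n ℓ m : ℕ} (X Y : Fin ℓ → Fin n → ZMod m) : ZMod m := ∑ j, ∑ i, X j i * Y j i

/-- squared length of the shortest integer vector in the class `x` -/
def normSq {n m : ℕ} (x : Fin n → ZMod m) : ℤ := ∑ i, (x i).valMinAbs ^ 2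

/-- all nonzero elements of the subgroup `U` have squared length at least `d` -/
def MinAtLeast {n m : ℕ} (d : ℕ) (U : AddSubgroup (Fin n → ZMod m)) : Prop :=
  ∀ u ∈ U, u ≠ 0 → (d : ℤ) ≤ normSq u

/-- pseudo-lattices of level `ℓ` and modulus `m` with all squared lengths at least `d` -/
structure IsPseudoLattice (n ℓ m : ℕ) [NeZero m] (d : ℕ) (a : (Fin ℓ → Fin n → ZMod m) → ℝ) :
    Prop where
  nonneg : ∀ X, 0 ≤ a X
  zero : a 0 = 1
  fourier : ∀ Y, 0 ≤ ∑ X, a X * Real.cos (2 * Real.pi * ((pairing X Y).val : ℝ) / m)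
  supp : ∀ X, ¬ MinAtLeast d (AddSubgroup.closure (Set.range X)) → a X = 0

/-- the set of the values `d (∑ a)^(2/(nℓ)) / m²` of the pseudo-lattices of level `ℓ` -/
def values (n ℓ : ℕ) : Set ℝ :=
  {v | ∃ (m : ℕ) (_ : NeZero m) (d : ℕ) (a : (Fin ℓ → Fin n → ZMod m) → ℝ),
    d ≤ m ^ 2 ∧ IsPseudoLattice n ℓ m d a ∧
    v = (d : ℝ) * (∑ X, a X) ^ ((2 : ℝ) / (n * ℓ)) / (m : ℝ) ^ 2}

/-- the bound of level `ℓ` for `γ_n` -/
noncomputable def lpBound (n ℓ : ℕ) : ℝ := sSup (values n ℓ)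

/-- the gap factor of level `ℓ` -/
noncomputable def gap (n ℓ : ℕ) : ℝ := (1 + 2 ^ (n + 2) / 2 ^ ℓ) ^ ((4 : ℝ) / (n * ℓ))

theorem fourier_iff {n ℓ m : ℕ} [NeZero m] (a : Tu n m ℓ → ℝ) (Y : Tu n m ℓ) :
    ∑ X, a X * Real.cos (2 * Real.pi * ((pairing X Y).val : ℝ) / m) = hat a Y := by
  unfold hat
  refine Finset.sum_congr rfl fun X _ => ?_
  rw [cs_eq]
  rfl

theorem value_ind {n ℓ m : ℕ} [NeZero m] (hn : 0 < n) (hℓ : 0 < ℓ) {d : ℕ} (hd : d ≤ m ^ 2)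
    {U : AddSubgroup (Gp n m)} (hU : Ok d U) :
    (d : ℝ) * sz U ^ ((2 : ℝ) / n) / (m : ℝ) ^ 2 ∈ values n ℓ := by
  refine ⟨m, inferInstance, d, ind U, hd, ⟨ind_nonneg U, ind_zero U, ?_, ?_⟩, ?_⟩
  · intro Y
    rw [fourier_iff]
    exact ind_hat U Y
  · intro X hX
    exact ind_supp hU X hX
  · rw [ind_sum, ← Real.rpow_natCast (sz U) ℓ, ← Real.rpow_mul (sz_pos U).le]
    have hn' : (n : ℝ) ≠ 0 := by exact_mod_cast hn.ne'
    have hℓ' : (ℓ : ℝ) ≠ 0 := by exact_mod_cast hℓ.ne'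
    congr 3
    field_simp

theorem sound {n ℓ : ℕ} (hn : 0 < n) (hℓ : 0 < ℓ) {β : ℝ} (hβ : ∀ v ∈ values n ℓ, v ≤ β) :
    hermite n ≤ β := by
  apply hermite_le_of_int hn
  intro B hB
  obtain ⟨m, hm, d, U, h1, h2, h3⟩ := exists_allowed hn B hB
  exact h3.trans (hβ _ (value_ind hn hℓ h1 h2))

theorem upper {n ℓ : ℕ} (hn : 0 < n) (hℓ : n + 3 ≤ ℓ) :
    ∀ v ∈ values n ℓ, v ≤ gap n ℓ * hermite n := by
  rintro v ⟨m, hm, d, a, hd, ha, rfl⟩
  have hn' : (0 : ℝ) < n := by exact_mod_cast hn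
  have hℓ' : (0 : ℝ) < ℓ := by exact_mod_cast (by omega : 0 < ℓ)
  obtain ⟨U, hU, hmax⟩ := exists_largest n m d
  have h1 := pseudo_le hℓ a ha.zero (fun Y => by rw [← fourier_iff]; exact ha.fourier Y)
    ha.supp hmax
  have h2 := value_le_hermite hn hd hU
  have hs0 : 0 ≤ ∑ X, a X := Finset.sum_nonneg fun X _ => ha.nonneg X
  have h3 : (∑ X, a X) ^ ((2 : ℝ) / (n * ℓ)) ≤ gap n ℓ * sz U ^ ((2 : ℝ) / n) := by
    refine (Real.rpow_le_rpow hs0 h1 (by positivity)).trans (le_of_eq ?_)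
    have hx : (0 : ℝ) ≤ 1 + 2 ^ (n + 2) / 2 ^ ℓ := by positivity
    rw [Real.mul_rpow (by positivity) (pow_nonneg (sz_pos U).le ℓ)]
    rw [← Real.rpow_natCast (sz U) ℓ, ← Real.rpow_mul (sz_pos U).le]
    have e1 : (1 + 2 ^ (n + 2) / 2 ^ ℓ : ℝ) ^ 2 = (1 + 2 ^ (n + 2) / 2 ^ ℓ : ℝ) ^ (2 : ℝ) := by
      norm_cast
    rw [e1, ← Real.rpow_mul hx]
    unfold gap
    congr 2
    · ring
    · field_simp
  have hm0 : (0 : ℝ) < m := by exact_mod_cast Nat.pos_of_ne_zero (NeZero.ne m)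
  have hg0 : 0 ≤ gap n ℓ := Real.rpow_nonneg (by positivity) _
  calc (d : ℝ) * (∑ X, a X) ^ ((2 : ℝ) / (n * ℓ)) / (m : ℝ) ^ 2
      ≤ (d : ℝ) * (gap n ℓ * sz U ^ ((2 : ℝ) / n)) / (m : ℝ) ^ 2 := by gcongr
    _ = gap n ℓ * ((d : ℝ) * sz U ^ ((2 : ℝ) / n) / (m : ℝ) ^ 2) := by ring
    _ ≤ gap n ℓ * hermite n := mul_le_mul_of_nonneg_left h2 hg0

theorem bdd {n ℓ : ℕ} (hn : 0 < n) (hℓ : n + 3 ≤ ℓ) : BddAbove (values n ℓ) :=
  ⟨_, fun v hv => upper hn hℓ v hv⟩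

theorem two_sided {n ℓ : ℕ} (hn : 0 < n) (hℓ : n + 3 ≤ ℓ) :
    hermite n ≤ lpBound n ℓ ∧ lpBound n ℓ ≤ gap n ℓ * hermite n := by
  have hne : (values n ℓ).Nonempty :=
    ⟨_, value_ind (m := 1) (d := 0) (U := ⊥) hn (by omega) (by simp)
      (fun u hu hu0 => absurd (AddSubgroup.mem_bot.mp hu) hu0)⟩
  refine ⟨sound hn (by omega) fun v hv => le_csSup (bdd hn hℓ) hv, ?_⟩
  exact csSup_le hne fun v hv => upper hn hℓ v hv

theorem gap_le {n : ℕ} (hn : 0 < n) {ℓ : ℕ} (hℓ : n + 3 ≤ ℓ) :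
    gap n ℓ ≤ 1 + 2 / (n : ℝ) ^ 2 := by
  have hn' : (1 : ℝ) ≤ n := by exact_mod_cast hn
  have hℓ' : (n : ℝ) ≤ ℓ := by exact_mod_cast (by omega : n ≤ ℓ)
  have hx : (2 : ℝ) ^ (n + 2) / 2 ^ ℓ ≤ 1 / 2 := by
    rw [div_le_div_iff₀ (by positivity) (by norm_num)]
    have : (2 : ℝ) ^ (n + 3) ≤ 2 ^ ℓ := pow_le_pow_right₀ (by norm_num) hℓ
    have e : (2 : ℝ) ^ (n + 3) = 2 * 2 ^ (n + 2) := by rw [pow_succ 2 (n + 2)]; ring
    linarith
  unfold gap
  by_cases h4 : (4 : ℝ) / (n * ℓ) ≤ 1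
  · calc (1 + 2 ^ (n + 2) / 2 ^ ℓ : ℝ) ^ ((4 : ℝ) / (n * ℓ))
        ≤ (1 + 1 / 2 : ℝ) ^ ((4 : ℝ) / (n * ℓ)) :=
          Real.rpow_le_rpow (by positivity) (by linarith) (by positivity)
      _ ≤ 1 + (4 : ℝ) / (n * ℓ) * (1 / 2) :=
          rpow_one_add_le_one_add_mul_self (by norm_num) (by positivity) h4
      _ ≤ 1 + 2 / (n : ℝ) ^ 2 := by
          have : (4 : ℝ) / (n * ℓ) ≤ 4 / (n : ℝ) ^ 2 := by
            apply div_le_div_of_nonneg_left (by norm_num) (by positivity)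
            rw [pow_two]
            exact mul_le_mul_of_nonneg_left hℓ' (by positivity)
          have e : 2 / (n : ℝ) ^ 2 = 4 / (n : ℝ) ^ 2 * (1 / 2) := by ring
          rw [e]
          linarith
  · exfalso
    apply h4
    have : (4 : ℝ) ≤ ℓ := by exact_mod_cast (by omega : 4 ≤ ℓ)
    rw [div_le_one (mul_pos (by linarith) (by linarith))]
    nlinarith

/-- the bounds of all levels `ℓ ≥ n + 3` differ from `γ_n` by at most `2/n` -/
theorem diff_le {n : ℕ} (hn : 0 < n) {ℓ : ℕ} (hℓ : n + 3 ≤ ℓ) :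
    |lpBound n ℓ - hermite n| ≤ 2 / n := by
  obtain ⟨h1, h2⟩ := two_sided hn hℓ
  have hn' : (0 : ℝ) < n := by exact_mod_cast hn
  rw [abs_of_nonneg (by linarith)]
  have h3 := gap_le hn hℓ
  have h4 := hermite_le hn
  have h5 := one_le_hermite hn
  have h6 : gap n ℓ * hermite n ≤ (1 + 2 / (n : ℝ) ^ 2) * hermite n :=
    mul_le_mul_of_nonneg_right h3 (by linarith)
  have h7 : 2 / (n : ℝ) ^ 2 * hermite n ≤ 2 / (n : ℝ) ^ 2 * n :=
    mul_le_mul_of_nonneg_left h4 (by positivity)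
  have h8 : 2 / (n : ℝ) ^ 2 * n = 2 / n := by field_simp
  nlinarith

theorem diff_tendsto {lev : ℕ → ℕ} (hlev : ∀ n, n + 3 ≤ lev n) :
    Tendsto (fun n : ℕ => lpBound n (lev n) / n - hermite n / n) atTop (𝓝 0) := by
  apply squeeze_zero_norm' (a := fun n : ℕ => 2 / (n : ℝ))
  · filter_upwards [eventually_gt_atTop 0] with n hn
    have hn' : (1 : ℝ) ≤ n := by exact_mod_cast hn
    rw [← sub_div, Real.norm_eq_abs, abs_div, abs_of_pos (by linarith : (0 : ℝ) < n)]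
    calc |lpBound n (lev n) - hermite n| / n ≤ (2 / n) / n :=
          div_le_div_of_nonneg_right (diff_le hn (hlev n)) (by linarith)
      _ ≤ 2 / n := div_le_self (by positivity) hn'
  · exact tendsto_const_div_atTop_nhds_zero_nat 2

/-- **Hermite's constant is computed by a linear programming hierarchy of level `n + 3`.** -/
theorem result :
    -- every level gives upper bounds
    (∀ n ℓ : ℕ, 0 < n → 0 < ℓ → ∀ β : ℝ, (∀ v ∈ values n ℓ, v ≤ β) → hermite n ≤ β) ∧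
    -- the levels `ℓ ≥ n + 3` are sharp up to an explicit factor
    (∀ n ℓ : ℕ, 0 < n → n + 3 ≤ ℓ → BddAbove (values n ℓ) ∧ hermite n ≤ lpBound n ℓ ∧
      lpBound n ℓ ≤ (1 + 2 ^ (n + 2) / 2 ^ ℓ) ^ ((4 : ℝ) / (n * ℓ)) * hermite n ∧
      |lpBound n ℓ - hermite n| ≤ 2 / n) ∧
    -- for a single modulus: almost sharp for `ℓ ≥ n + 3`, sharp after rounding for
    -- `ℓ ≥ n + 2 + n log₂ m`
    (∀ (n ℓ m : ℕ) (_ : NeZero m) (d : ℕ), n + 3 ≤ ℓ →
      ∃ U : AddSubgroup (Fin n → ZMod m), MinAtLeast d U ∧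
        (∀ V : AddSubgroup (Fin n → ZMod m), MinAtLeast d V → Nat.card V ≤ Nat.card U) ∧
        (∃ a, IsPseudoLattice n ℓ m d a ∧ ∑ X, a X = (Nat.card U : ℝ) ^ ℓ) ∧
        (∀ a, IsPseudoLattice n ℓ m d a →
          ∑ X, a X ≤ (1 + 2 ^ (n + 2) / 2 ^ ℓ) ^ 2 * (Nat.card U : ℝ) ^ ℓ ∧
          (2 ^ (n + 2) * m ^ n ≤ 2 ^ ℓ → ∑ X, a X < ((Nat.card U : ℝ) + 1) ^ ℓ))) ∧
    -- the limit of `γ_n / n`
    (∀ lev : ℕ → ℕ, (∀ n, n + 3 ≤ lev n) →
      (∀ L : ℝ, Tendsto (fun n : ℕ => hermite n / n) atTop (𝓝 L) ↔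
        Tendsto (fun n : ℕ => lpBound n (lev n) / n) atTop (𝓝 L)) ∧
      ((∀ ε > 0, ∀ᶠ n : ℕ in atTop, hermite n / n ≤ 1 / (2 * Real.pi * Real.exp 1) + ε) ↔
        (∀ ε > 0, ∀ᶠ n : ℕ in atTop,
          lpBound n (lev n) / n ≤ 1 / (2 * Real.pi * Real.exp 1) + ε))) := by
  refine ⟨fun n ℓ hn hℓ β hβ => sound hn hℓ hβ, fun n ℓ hn hℓ => ⟨bdd hn hℓ,
    (two_sided hn hℓ).1, (two_sided hn hℓ).2, diff_le hn hℓ⟩, ?_, ?_⟩
  · intro n ℓ m hm d hℓ
    obtain ⟨U, hU, hmax⟩ := exists_largest n m d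
    refine ⟨U, hU, hmax, ⟨ind U, ⟨ind_nonneg U, ind_zero U, ?_, ?_⟩, ind_sum U⟩, ?_⟩
    · intro Y
      rw [fourier_iff]
      exact ind_hat U Y
    · intro X hX
      exact ind_supp hU X hX
    · intro a ha
      have hf : ∀ Y, 0 ≤ hat a Y := fun Y => by rw [← fourier_iff]; exact ha.fourier Y
      exact ⟨pseudo_le hℓ a ha.zero hf ha.supp hmax,
        fun hlev => pseudo_lt hℓ hlev a ha.zero hf ha.supp hmax⟩
  · intro lev hlev
    have h := diff_tendsto hlev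
    constructor
    · intro L
      constructor
      · intro hL
        have := h.add hL
        simpa using this
      · intro hL
        have := hL.sub h
        simpa using this
    · constructor
      · intro hb ε hε
        filter_upwards [hb (ε / 2) (by positivity),
          h.eventually (gt_mem_nhds (by positivity : (0 : ℝ) < ε / 2))] with n h1 h2
        linarith
      · intro hb ε hε
        filter_upwards [hb (ε / 2) (by positivity),
          h.eventually (lt_mem_nhds (by linarith : -(ε / 2) < (0 : ℝ)))] with n h1 h2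
        linarith

end Pool.Agent.Results.MP_ef2672_gt.LPHierarchy
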