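import Pool.Agent.K4H71.RL.Rat

/-! Lattices that are exponentially denser than the Minkowski-Hlawka bound form a proportion of at
most `exp (-c n²)` of the sublattices of `ℤ^n` of index `p`. -/

set_option autoImplicit false

namespace Pool.Agent.Results.MP_ef2672_gt.RareLattices

open Pool.Agent.K4H71.RL

theorem result (δ : ℝ) (hδ : 0 < δ) : ∃ c : ℝ, 0 < c ∧ ∃ n₀ : ℕ, ∀ n : ℕ, n₀ ≤ n →
    ∃ p₀ : ℕ, ∀ p : ℕ, p₀ ≤ p → p.Prime →
      ({M : AddSubgroup (Fin n → ℤ) | M.index = p ∧ ∀ x ∈ M, x ≠ 0 →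
        (1 + δ) * (n / (2 * Real.pi * Real.exp 1)) * (p : ℝ) ^ (2 / (n : ℝ)) ≤
          ∑ i, (x i : ℝ) ^ 2}.ncard : ℝ) ≤
      Real.exp (-(c * (n : ℝ) ^ 2)) * ({M : AddSubgroup (Fin n → ℤ) | M.index = p}.ncard : ℝ) := by
  classical
  obtain ⟨c, hc, n0, h⟩ := rare hδ
  obtain ⟨n1, hn1⟩ : ∃ n1 : ℕ, ∀ n : ℕ, n1 ≤ n → Real.log 2 ≤ c / 2 * (n : ℝ) ^ 2 := by
    have h1 := (((Filter.tendsto_pow_atTop (α := ℝ) (n := 2) (by norm_num)).comp
      (tendsto_natCast_atTop_atTop (R := ℝ))).const_mul_atTop (half_pos hc)).eventually_ge_atTop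
      (Real.log 2)
    obtain ⟨n1, hn1⟩ := Filter.eventually_atTop.1 h1
    exact ⟨n1, hn1⟩
  refine ⟨c / 2, half_pos hc, max (max n0 n1) 1, fun n hn => ?_⟩
  have hn0 : n0 ≤ n := (le_max_left _ _).trans ((le_max_left _ _).trans hn)
  have hnn1 : n1 ≤ n := (le_max_right _ _).trans ((le_max_left _ _).trans hn)
  have hn1' : 1 ≤ n := (le_max_right _ _).trans hn
  obtain ⟨p0, hp0⟩ := h n hn0
  refine ⟨p0, fun p hp hpp => ?_⟩
  have : Fact p.Prime := ⟨hpp⟩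
  have h1 := hp0 p this hp
  have hppos : (0 : ℝ) < p := by exact_mod_cast hpp.pos
  have hnpos : (0 : ℝ) < n := by exact_mod_cast hn1'
  have h2 := ratio hn1' (fun M : AddSubgroup (Fin n → ℤ) => ∀ x ∈ M, x ≠ 0 →
        (1 + δ) * (n / (2 * Real.pi * Real.exp 1)) * (p : ℝ) ^ (2 / (n : ℝ)) ≤
          ∑ i, (x i : ℝ) ^ 2) (q := Real.exp (-(c * n ^ 2))) (Real.exp_pos _).le (by
    refine le_trans (le_of_eq ?_) h1
    rw [nadm]
    congr 2
    ext a
    simp only [Finset.mem_filter, Finset.mem_univ, true_and, Adm]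
    have hR : 0 ≤ RR n δ * (p : ℝ) ^ ((n : ℝ)⁻¹) :=
      mul_nonneg (Real.sqrt_nonneg _) (by positivity)
    have hsq : (RR n δ * (p : ℝ) ^ ((n : ℝ)⁻¹)) ^ 2 =
        (1 + δ) * (n / (2 * Real.pi * Real.exp 1)) * (p : ℝ) ^ (2 / (n : ℝ)) := by
      rw [mul_pow, RR, Real.sq_sqrt (by positivity), ← Real.rpow_natCast ((p : ℝ) ^ ((n : ℝ)⁻¹)),
        ← Real.rpow_mul hppos.le]
      congr 1
      · ring
      · congr 1
        push_cast
        ring
    have hx : ∀ x : Fin n → ℤ, ∑ i, (x i : ℝ) ^ 2 = nm (cr x) ^ 2 := by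
      intro x
      rw [nm_sq, dt]
      refine Finset.sum_congr rfl fun i _ => ?_
      rw [cr]
      ring
    constructor
    · intro h x hx0 hxa
      have h3 := h x hxa hx0
      rw [← hsq, hx] at h3
      exact (sq_le_sq₀ hR (nm_nonneg _)).1 h3
    · intro h x hxa hx0
      have h3 := h x hx0 hxa
      rw [← hsq, hx]
      exact pow_le_pow_left₀ hR h3 2)
  refine h2.trans ?_
  refine mul_le_mul_of_nonneg_right ?_ (Nat.cast_nonneg _)
  have h3 := hn1 n hnn1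
  have h4 : (2 : ℝ) ≤ Real.exp (c / 2 * (n : ℝ) ^ 2) := by
    calc (2 : ℝ) = Real.exp (Real.log 2) := (Real.exp_log (by norm_num)).symm
      _ ≤ _ := Real.exp_le_exp.2 h3
  calc 2 * Real.exp (-(c * (n : ℝ) ^ 2))
      ≤ Real.exp (c / 2 * (n : ℝ) ^ 2) * Real.exp (-(c * (n : ℝ) ^ 2)) :=
        mul_le_mul_of_nonneg_right h4 (Real.exp_pos _).le
    _ = _ := by
        rw [← Real.exp_add]
        congr 1
        ring

end Pool.Agent.Results.MP_ef2672_gt.RareLattices
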