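import Pool.Agent.K4H31.SV.Pair

/-!
# MP_ef2672_gt: a stability version of Voronoi's theorem for Hermite's constant

Voronoi: the lattices with `γ(L) = γ_n` are perfect and eutactic. We show that every lattice `L` with
`γ(L)` close to `γ_n` has many short vectors, exponentially many if `n` is large, that are almost
eutactic: they carry a probability distribution with small atoms whose second moment is close to
isotropic in trace norm, with bounds independent of the dimension. All statements are for every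
dimension and every lattice, in terms of the quotient `γ_n / γ(L)`.
-/

open Matrix

namespace Pool.Agent.Results.MP_ef2672_gt.StableVoronoi

/-- least squared length of a nonzero vector of the lattice `A ℤⁿ` -/
noncomputable def minSq {n : ℕ} (A : Matrix (Fin n) (Fin n) ℝ) : ℝ :=
  Pool.Agent.H160R3.Herm.minSq A

/-- `γ(A) = λ₁² / covolume^(2/n)` for the lattice `A ℤⁿ` -/
noncomputable def gam {n : ℕ} (A : Matrix (Fin n) (Fin n) ℝ) : ℝ :=
  minSq A / |A.det| ^ ((2 : ℝ) / (n : ℝ))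

/-- Hermite's constant `γ_n` -/
noncomputable def hermite (n : ℕ) : ℝ := Pool.Agent.H160R3.Herm.hermite n

/-- the vector `A w` of the lattice -/
def vec {n : ℕ} (A : Matrix (Fin n) (Fin n) ℝ) (w : Fin n → ℤ) : Fin n → ℝ :=
  A *ᵥ fun j => (w j : ℝ)

/-- squared length of `A w` -/
noncomputable def nsq {n : ℕ} (A : Matrix (Fin n) (Fin n) ℝ) (w : Fin n → ℤ) : ℝ :=
  vec A w ⬝ᵥ vec A w

/-- the value of the quadratic form `S` at the unit vector in the direction of `A w` -/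
noncomputable def val {n : ℕ} (A S : Matrix (Fin n) (Fin n) ℝ) (w : Fin n → ℤ) : ℝ :=
  (vec A w ⬝ᵥ (S *ᵥ vec A w)) / nsq A w

/-- number of nonzero lattice vectors of squared length less than `t λ₁²` -/
noncomputable def cnt {n : ℕ} (A : Matrix (Fin n) (Fin n) ℝ) (t : ℝ) : ℕ :=
  {w : Fin n → ℤ | w ≠ 0 ∧ nsq A w < t * minSq A}.ncard

/-- `ρ = (γ_n / γ(A)) (cnt t + M)^(2/n) / t` -/
noncomputable def rho {n : ℕ} (A : Matrix (Fin n) (Fin n) ℝ) (t : ℝ) (M : ℕ) : ℝ :=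
  hermite n / gam A * ((cnt A t + M : ℕ) : ℝ) ^ ((2 : ℝ) / n) / t

/-- nonzero lattice vectors of squared length between `t λ₁²` and `T λ₁²` -/
def band {n : ℕ} (A : Matrix (Fin n) (Fin n) ℝ) (t T : ℝ) : Set (Fin n → ℤ) :=
  {w | w ≠ 0 ∧ t * minSq A ≤ nsq A w ∧ nsq A w ≤ T * minSq A}

/-- a probability distribution `p` on the finite set `F` of vectors with atoms at most `1 / M`, whose
second moment is within `κ` of isotropic, in trace norm (first line) and for pairs (second line) -/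
def Isotropic {n : ℕ} (A : Matrix (Fin n) (Fin n) ℝ) (F : Finset (Fin n → ℤ))
    (p : (Fin n → ℤ) → ℝ) (M : ℕ) (κ : ℝ) : Prop :=
  (∀ w ∈ F, 0 ≤ p w ∧ p w ≤ 1 / M) ∧ ∑ w ∈ F, p w = 1 ∧
  (∀ Q : Matrix (Fin n) (Fin n) ℝ, Q.IsSymm → (∀ x : Fin n → ℝ, |x ⬝ᵥ (Q *ᵥ x)| ≤ x ⬝ᵥ x) →
    |∑ w ∈ F, p w * val A Q w - Q.trace / n| ≤ κ) ∧
  ∑ w ∈ F, ∑ z ∈ F, p w * p z * ((vec A w ⬝ᵥ vec A z) ^ 2 / (nsq A w * nsq A z)) ≤ 1 / n + κ

open Pool.Agent.K4H31.SV Pool.Agent.TH220 in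
theorem result {n : ℕ} (hn : 0 < n) {A : Matrix (Fin n) (Fin n) ℝ} (hA : A.det ≠ 0) :
    (∀ t : ℝ, 1 ≤ t → ∀ M : ℕ, 0 < M → ∀ (S : Matrix (Fin n) (Fin n) ℝ) (α β : ℝ), S.IsSymm →
      0 < α → α ≤ β → (∀ x : Fin n → ℝ, α * (x ⬝ᵥ x) ≤ x ⬝ᵥ (S *ᵥ x)) →
      (∀ x : Fin n → ℝ, x ⬝ᵥ (S *ᵥ x) ≤ β * (x ⬝ᵥ x)) →
      M ≤ (band A t (β / α * rho A t M * t) ∩
        {w | val A S w ≤ rho A t M * S.det ^ ((1 : ℝ) / n)}).ncard) ∧
    (∀ t : ℝ, 1 ≤ t → ∀ M : ℕ, 0 < M → ∀ τ : ℝ, 0 < τ → τ < 1 →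
      ∃ (F : Finset (Fin n → ℤ)) (p : (Fin n → ℤ) → ℝ),
        (∀ w ∈ F, w ∈ band A t ((1 + τ) / (1 - τ) * rho A t M * t)) ∧
        Isotropic A F p M ((1 + τ) / τ * (rho A t M - 1))) ∧
    (∀ τ : ℝ, 0 < τ → τ ≤ 1 / 4 → (1 - τ ^ 2) * hermite n ≤ gam A →
      ∀ M : ℕ, 0 < M → (M : ℝ) ≤ (1 + τ ^ 2) ^ ((n : ℝ) / 2) →
      ∃ (F : Finset (Fin n → ℤ)) (p : (Fin n → ℤ) → ℝ),
        (∀ w ∈ F, w ≠ 0 ∧ nsq A w ≤ (1 + 5 * τ) * minSq A) ∧ Isotropic A F p M (4 * τ)) ∧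
    (∀ τ : ℝ, 0 < τ → τ < 1 → hermite n / gam A < 1 + τ ^ 2 / (2 * (1 + τ) ^ 2 * n) →
      ∀ Q : Matrix (Fin n) (Fin n) ℝ, Q.IsSymm →
      (∀ w : Fin n → ℤ, w ≠ 0 → nsq A w < (1 + τ) / (1 - τ) * minSq A →
        vec A w ⬝ᵥ (Q *ᵥ vec A w) = 0) → Q = 0) := by
  have hnsq : ∀ w : Fin n → ℤ, nsq A w = HG.nsq A w := fun w => vec_dot A w
  have hval : ∀ (S : Matrix (Fin n) (Fin n) ℝ) (w : Fin n → ℤ), val A S w = qval A S w := by
    intro S w
    unfold val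
    rw [hnsq]
    rfl
  have hcnt : ∀ t : ℝ, cnt A t = Pool.Agent.K4H31.SV.cnt A t := by
    intro t
    unfold cnt
    simp only [hnsq]
    rfl
  have hrho : ∀ (t : ℝ) (M : ℕ), rho A t M = Pool.Agent.K4H31.SV.rho A t M := by
    intro t M
    unfold rho
    rw [hcnt]
    rfl
  have hband : ∀ t T : ℝ, band A t T = Pool.Agent.K4H31.SV.band A t T := by
    intro t T
    unfold band
    simp only [hnsq]
    rfl
  refine ⟨fun t ht M hM S α β hS hα hαβ h1 h2 => ?_, fun t ht M hM τ hτ0 hτ1 => ?_,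
    fun τ hτ0 hτ1 hg M hM hM2 => ?_, fun τ hτ0 hτ1 hR Q hQ h => ?_⟩
  · rw [hband, hrho]
    simp only [hval]
    exact manyS hn hA ht hM hS hα hαβ h1 h2
  · obtain ⟨F, p, hF, hs, hQ⟩ := weights hn hA hτ0 hτ1 ht hM
    refine ⟨F, p, fun w hw => by rw [hband, hrho]; exact (hF w hw).1, fun w hw => (hF w hw).2, hs,
      ?_, ?_⟩
    · intro Q h1 h2
      simp only [hval]
      rw [hrho]
      exact hQ Q h1 h2
    · simp only [hnsq, hrho]
      exact pair hA F p (fun w hw => (hF w hw).1.1) (fun w hw => (hF w hw).2.1) hs hQ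
  · obtain ⟨F, p, hF, hs, hQ, hp⟩ := headline hn hA hτ0 hτ1 hg hM hM2
    refine ⟨F, p, fun w hw => by rw [hnsq]; exact ⟨(hF w hw).1, (hF w hw).2.1⟩,
      fun w hw => (hF w hw).2.2, hs, ?_, ?_⟩
    · intro Q h1 h2
      simp only [hval]
      exact hQ Q h1 h2
    · simp only [hnsq]
      exact hp
  · refine perfect hn hA hτ0 hτ1 ?_ hQ (fun w hw h3 => h w hw (by rw [hnsq]; exact h3))
    have hn' : (0 : ℝ) < n := by exact_mod_cast hn
    have h1 : Pool.Agent.H160R3.Herm.hermite n / HG.gam A - 1 < τ ^ 2 / (2 * (1 + τ) ^ 2 * n) := by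
      have : hermite n / gam A = Pool.Agent.H160R3.Herm.hermite n / HG.gam A := rfl
      rw [this] at hR
      linarith
    calc (1 + τ) / τ * (Pool.Agent.H160R3.Herm.hermite n / HG.gam A - 1)
        < (1 + τ) / τ * (τ ^ 2 / (2 * (1 + τ) ^ 2 * n)) :=
          mul_lt_mul_of_pos_left h1 (by positivity)
      _ = τ / (2 * (1 + τ) * n) := by
          field_simp

end Pool.Agent.Results.MP_ef2672_gt.StableVoronoi
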